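import Mathlib
import Pool.Agent.Q62.RN.Stm

/-!
# Project RN: job B1 (points have zero capacity)
-/

set_option autoImplicit false

open MeasureTheory Filter Topology Set
open scoped ContDiff ENNReal

namespace Pool.Agent.Q162.RN

open Pool.Agent.Q62.RN

theorem sq_sum_disj (s : Finset ℕ) (x : ℕ → ℝ) (h : ∀ k ∈ s, ∀ l ∈ s, k ≠ l → x k * x l = 0) :
    (∑ k ∈ s, x k) ^ 2 = ∑ k ∈ s, x k ^ 2 := by
  rw [pow_two, Finset.sum_mul_sum]
  refine Finset.sum_congr rfl fun k hk => ?_
  rw [Finset.sum_eq_single k]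
  · ring
  · intro l hl hlk
    exact h k hk l hl (Ne.symm hlk)
  · intro h1
    exact absurd hk h1

theorem g2_nonneg (u : ℂ → ℝ) (z : ℂ) : 0 ≤ g2 u z := by
  unfold g2
  positivity

theorem gx_continuous {u : ℂ → ℝ} (hu : ContDiff ℝ ∞ u) : Continuous (gx u) := by
  unfold gx
  exact (hu.continuous_fderiv (by simp)).clm_apply continuous_const

theorem gy_continuous {u : ℂ → ℝ} (hu : ContDiff ℝ ∞ u) : Continuous (gy u) := by
  unfold gy
  exact (hu.continuous_fderiv (by simp)).clm_apply continuous_const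

theorem g2_continuous {u : ℂ → ℝ} (hu : ContDiff ℝ ∞ u) : Continuous (g2 u) := by
  unfold g2
  exact ((gx_continuous hu).pow 2).add ((gy_continuous hu).pow 2)

theorem g2_eq_zero {u : ℂ → ℝ} {z : ℂ} (hz : z ∉ tsupport u) : g2 u z = 0 := by
  have h : fderiv ℝ u z = 0 := by
    by_contra h
    exact hz (support_fderiv_subset ℝ h)
  unfold g2 gx gy
  rw [h]
  simp

theorem g2_hasCompactSupport {u : ℂ → ℝ} (hu : HasCompactSupport u) :
    HasCompactSupport (g2 u) := by
  refine HasCompactSupport.intro hu fun z hz => g2_eq_zero hz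

theorem g2_integrable {u : ℂ → ℝ} (h1 : ContDiff ℝ ∞ u) (h2 : HasCompactSupport u) :
    Integrable (g2 u) :=
  (g2_continuous h1).integrable_of_hasCompactSupport (g2_hasCompactSupport h2)

theorem g2_const_mul {u : ℂ → ℝ} (hu : Differentiable ℝ u) (c : ℝ) (z : ℂ) :
    g2 (fun z => c * u z) z = c ^ 2 * g2 u z := by
  have h : fderiv ℝ (fun z => c * u z) z = c • fderiv ℝ u z := by
    exact ((hu z).hasFDerivAt.const_mul c).fderiv
  unfold g2 gx gy
  rw [h]
  simp only [_root_.smul_apply, smul_eq_mul]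
  ring

/-- **Job B1.** -/
theorem t_B1 : S_B1 := by
  intro p r ε hr hε
  -- the bump function
  let φ : ContDiffBump (0 : ℂ) := ⟨1 / 2, 1, by norm_num, by norm_num⟩
  have hφc : ContDiff ℝ ∞ (φ : ℂ → ℝ) := φ.contDiff
  have hφd : Differentiable ℝ (φ : ℂ → ℝ) := hφc.differentiable (by simp)
  have hφf : ∀ z, fderiv ℝ (φ : ℂ → ℝ) z ≠ 0 → 1 / 2 < ‖z‖ ∧ ‖z‖ < 1 := by
    intro z hz
    refine ⟨?_, ?_⟩
    · by_contra h
      push Not at h
      apply hz
      refine IsLocalMax.fderiv_eq_zero (Filter.Eventually.of_forall fun y => ?_)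
      have h1 : φ z = 1 := φ.one_of_mem_closedBall (by
        rw [mem_closedBall_zero_iff]
        exact h)
      rw [h1]
      exact φ.le_one
    · by_contra h
      push Not at h
      apply hz
      refine IsLocalMin.fderiv_eq_zero (Filter.Eventually.of_forall fun y => ?_)
      have h1 : φ z = 0 := φ.zero_of_le_dist (by
        rw [dist_zero_right]
        exact h)
      rw [h1]
      exact φ.nonneg
  set D := ∫ z, g2 (φ : ℂ → ℝ) z with hD
  have hD0 : 0 ≤ D := integral_nonneg fun z => g2_nonneg _ z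
  obtain ⟨n, hn⟩ := exists_nat_gt (D / ε)
  have hn0 : (0 : ℝ) < n := lt_of_le_of_lt (by positivity) hn
  have hnN : 0 < n := by exact_mod_cast hn0
  obtain ⟨s, hs⟩ : ∃ s : ℕ → ℝ, ∀ k, s k = 2 ^ k * (2 / r) := ⟨_, fun _ => rfl⟩
  have hs0 : ∀ k, 0 < s k := by
    intro k
    rw [hs]
    positivity
  have hsge : ∀ k, 2 / r ≤ s k := by
    intro k
    rw [hs]
    have h1 : (1 : ℝ) ≤ 2 ^ k := one_le_pow₀ (by norm_num)
    have h2 : 0 < 2 / r := by positivity
    nlinarith
  have hsl : ∀ k l, k < l → 2 * s k ≤ s l := by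
    intro k l hkl
    rw [hs, hs]
    have h1 : (2 : ℝ) ^ (k + 1) ≤ 2 ^ l := pow_le_pow_right₀ (by norm_num) hkl
    have h2 : 0 < 2 / r := by positivity
    rw [pow_succ] at h1
    nlinarith
  obtain ⟨ψ, hψ⟩ : ∃ ψ : ℕ → ℂ → ℝ, ∀ k z, ψ k z = φ (s k • (z - p)) := ⟨_, fun _ _ => rfl⟩
  have hψe : ∀ k, ψ k = fun z => φ (s k • (z - p)) := fun k => funext fun z => hψ k z
  have hψc : ∀ k, ContDiff ℝ ∞ (ψ k) := by
    intro k
    rw [hψe]
    have h1 : ContDiff ℝ ∞ fun z : ℂ => s k • (z - p) := by fun_prop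
    exact hφc.comp h1
  have hψf : ∀ k z, fderiv ℝ (ψ k) z = s k • fderiv ℝ (φ : ℂ → ℝ) (s k • (z - p)) := by
    intro k z
    have h1 : HasFDerivAt (fun z : ℂ => s k • (z - p)) (s k • ContinuousLinearMap.id ℝ ℂ) z :=
      ((hasFDerivAt_id z).sub_const p).const_smul (s k)
    have h2 := (hφd (s k • (z - p))).hasFDerivAt.comp z h1
    rw [hψe]
    have h3 := h2.fderiv
    change fderiv ℝ ((φ : ℂ → ℝ) ∘ fun z : ℂ => s k • (z - p)) z = _
    rw [h3]
    ext v
    simp
  have hψg : ∀ k z, g2 (ψ k) z = s k ^ 2 * g2 (φ : ℂ → ℝ) (s k • (z - p)) := by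
    intro k z
    unfold g2 gx gy
    rw [hψf]
    simp only [_root_.smul_apply, smul_eq_mul]
    ring
  have hψi : ∀ k, ∫ z, g2 (ψ k) z = D := by
    intro k
    simp only [hψg]
    rw [integral_const_mul]
    have h1 := integral_sub_right_eq_self (μ := volume)
      (fun z : ℂ => g2 (φ : ℂ → ℝ) (s k • z)) p
    rw [h1, Measure.integral_comp_smul, Complex.finrank_real_complex, smul_eq_mul, ← hD,
      abs_of_nonneg (by positivity), ← mul_assoc, mul_inv_cancel₀, one_mul]
    exact (pow_pos (hs0 k) 2).ne'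
  have hψsupp : ∀ k z, ψ k z ≠ 0 → ‖z - p‖ ≤ r / 2 := by
    intro k z hz
    by_contra h
    push Not at h
    apply hz
    rw [hψ]
    refine φ.zero_of_le_dist ?_
    rw [dist_zero_right, norm_smul, Real.norm_eq_abs, abs_of_pos (hs0 k)]
    change (1 : ℝ) ≤ s k * ‖z - p‖
    have h1 := hsge k
    have h2 : 0 < 2 / r := by positivity
    calc (1 : ℝ) = 2 / r * (r / 2) := by field_simp
      _ ≤ s k * ‖z - p‖ := mul_le_mul h1 h.le (by positivity) (hs0 k).le
  have hψcs : ∀ k, HasCompactSupport (ψ k) := by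
    intro k
    refine HasCompactSupport.intro (isCompact_closedBall p (r / 2)) fun z hz => ?_
    by_contra h
    apply hz
    rw [mem_closedBall_iff_norm]
    exact hψsupp k z h
  have hdisj : ∀ k l z, k ≠ l → fderiv ℝ (ψ k) z = 0 ∨ fderiv ℝ (ψ l) z = 0 := by
    have key : ∀ k l z, k < l → fderiv ℝ (ψ k) z = 0 ∨ fderiv ℝ (ψ l) z = 0 := by
      intro k l z hkl
      by_contra h
      push Not at h
      obtain ⟨h1, h2⟩ := h
      rw [hψf] at h1 h2
      have h3 := hφf _ (right_ne_zero_of_smul h1)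
      have h4 := hφf _ (right_ne_zero_of_smul h2)
      rw [norm_smul, Real.norm_eq_abs, abs_of_pos (hs0 _)] at h3 h4
      have h5 := hsl k l hkl
      have h6 : 0 ≤ ‖z - p‖ := norm_nonneg _
      nlinarith [h3.1, h4.2]
    intro k l z hkl
    rcases lt_or_gt_of_ne hkl with h | h
    · exact key k l z h
    · exact (key l k z h).symm
  refine ⟨fun z => (n : ℝ)⁻¹ * ∑ k ∈ Finset.range n, ψ k z, ?_, ?_, ?_, ?_, ?_, ?_⟩
  · exact contDiff_const.mul (ContDiff.sum fun k _ => hψc k)
  · refine HasCompactSupport.intro (isCompact_closedBall p (r / 2)) fun z hz => ?_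
    rw [Finset.sum_eq_zero, mul_zero]
    intro k _
    by_contra h
    apply hz
    rw [mem_closedBall_iff_norm]
    exact hψsupp k z h
  · refine (closure_minimal ?_ Metric.isClosed_closedBall).trans
      (Metric.closedBall_subset_ball (ε₁ := r / 2) (by linarith))
    intro z hz
    rw [mem_closedBall_iff_norm]
    by_contra h
    apply hz
    change (n : ℝ)⁻¹ * ∑ k ∈ Finset.range n, ψ k z = 0
    rw [Finset.sum_eq_zero, mul_zero]
    intro k _
    by_contra h1
    exact h (hψsupp k z h1)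
  · intro z
    refine mul_nonneg (by positivity) (Finset.sum_nonneg fun k _ => ?_)
    rw [hψ]
    exact φ.nonneg
  · have h1 : ∀ k ∈ Finset.range n, ψ k p = 1 := by
      intro k _
      rw [hψ, sub_self, smul_zero]
      exact φ.one_of_mem_closedBall (Metric.mem_closedBall_self (by change (0:ℝ) ≤ 1 / 2; norm_num))
    change (n : ℝ)⁻¹ * ∑ k ∈ Finset.range n, ψ k p = 1
    rw [Finset.sum_congr rfl h1, Finset.sum_const, Finset.card_range, nsmul_eq_mul, mul_one,
      inv_mul_cancel₀ hn0.ne']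
  · have hf : ∀ z, fderiv ℝ (fun z => (n : ℝ)⁻¹ * ∑ k ∈ Finset.range n, ψ k z) z =
        (n : ℝ)⁻¹ • ∑ k ∈ Finset.range n, fderiv ℝ (ψ k) z := by
      intro z
      have h1 : HasFDerivAt (fun z => ∑ k ∈ Finset.range n, ψ k z)
          (∑ k ∈ Finset.range n, fderiv ℝ (ψ k) z) z :=
        HasFDerivAt.fun_sum fun k _ => ((hψc k).differentiable (by simp) z).hasFDerivAt
      exact (h1.const_mul _).fderiv
    have hg : ∀ z, g2 (fun z => (n : ℝ)⁻¹ * ∑ k ∈ Finset.range n, ψ k z) z =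
        ∑ k ∈ Finset.range n, ((n : ℝ)⁻¹) ^ 2 * g2 (ψ k) z := by
      intro z
      have h1 : ∀ v : ℂ, (fderiv ℝ (fun z => (n : ℝ)⁻¹ * ∑ k ∈ Finset.range n, ψ k z) z v) ^ 2 =
          ((n : ℝ)⁻¹) ^ 2 * ∑ k ∈ Finset.range n, (fderiv ℝ (ψ k) z v) ^ 2 := by
        intro v
        rw [hf, _root_.smul_apply, _root_.sum_apply, smul_eq_mul, mul_pow,
          sq_sum_disj]
        intro k _ l _ hkl
        rcases hdisj k l z hkl with h | h
        · rw [h]
          simp
        · rw [h]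
          simp
      unfold g2 gx gy
      rw [h1, h1, ← mul_add, ← Finset.sum_add_distrib, Finset.mul_sum]
    simp only [hg]
    rw [integral_finsetSum _ fun k _ => (g2_integrable (hψc k) (hψcs k)).const_mul _]
    simp only [integral_const_mul, hψi]
    rw [Finset.sum_const, Finset.card_range, nsmul_eq_mul]
    have h1 : (n : ℝ) * (((n : ℝ)⁻¹) ^ 2 * D) = D / n := by
      field_simp
    rw [h1, div_le_iff₀ hn0]
    rw [div_lt_iff₀ hε] at hn
    linarith

end Pool.Agent.Q162.RN
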