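import Mathlib
import Pool.Agent.Q162.RN.B1

/-!
# Project RN: job B2 (a set of finite energy contains the segment)
-/

set_option autoImplicit false

open MeasureTheory Filter Topology Set
open scoped ContDiff ENNReal

namespace Pool.Agent.Q162.RN

open Pool.Agent.Q62.RN

/-- a continuous function with compact support is integrable for a finite measure -/
theorem int_fin {u : ℂ → ℝ} (hu : Continuous u) (hc : HasCompactSupport u) (μ : Measure ℂ)
    [IsFiniteMeasure μ] : Integrable u μ :=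
  hu.integrable_of_hasCompactSupport hc

/-- the integral of a nonnegative function is at least the contribution of an atom -/
theorem int_ge_atom {u : ℂ → ℝ} (hu : Continuous u) (hc : HasCompactSupport u)
    (h0 : ∀ z, 0 ≤ u z) (μ : Measure ℂ) [IsFiniteMeasure μ] (y : ℂ) :
    μ.real {y} * u y ≤ ∫ z, u z ∂μ := by
  have h1 : ∫ z in {y}, u z ∂μ = μ.real {y} * u y := by
    rw [integral_singleton, smul_eq_mul]
  rw [← h1]
  exact setIntegral_le_integral (int_fin hu hc μ) (Filter.Eventually.of_forall h0)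

theorem Test.smul {Ω : Set ℂ} {u : ℂ → ℝ} (hu : Test Ω u) (c : ℝ) :
    Test Ω (fun z => c * u z) := by
  refine ⟨contDiff_const.mul hu.1, hu.2.1.mul_left, (closure_mono ?_).trans hu.2.2⟩
  intro z hz
  exact right_ne_zero_of_mul hz

/-- the functional on multiples -/
theorem J_smul (m : ℝ) (fp fm μ : Measure ℂ) {u : ℂ → ℝ} (hu : Differentiable ℝ u) (c : ℝ) :
    J m fp fm μ (fun z => c * u z) =
      c ^ 2 * (1 / 2 * (∫ p, g2 u p) + m / 2 * (∫ p, g2 u p ∂μ)) -
        c * ((∫ p, u p ∂fp) - ∫ p, u p ∂fm) := by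
  unfold J
  simp only [g2_const_mul hu]
  rw [integral_const_mul, integral_const_mul, integral_const_mul, integral_const_mul]
  ring

/-- **Job B2.** -/
theorem t_B2 : S_B2 := by
  intro l m Ω fp S hl hm hΩ hSΩ hload hrel hE
  by_contra hcon
  rw [Set.not_subset] at hcon
  obtain ⟨x, hx, hxS⟩ := hcon
  apply hE
  obtain ⟨x0, hx0, rfl⟩ := hx
  have hxΩ : (x0 : ℂ) ∈ Ω := hSΩ ⟨x0, hx0, rfl⟩
  have hxc : (x0 : ℂ) ∉ closure S := fun h => hxS (hrel.2 _ hxΩ h)
  obtain ⟨ρ, hρ, hρb⟩ : ∃ ρ > 0, Metric.ball (x0 : ℂ) ρ ⊆ Ω ∩ (closure S)ᶜ :=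
    Metric.isOpen_iff.1 (hΩ.inter isClosed_closure.isOpen_compl) _ ⟨hxΩ, hxc⟩
  obtain ⟨y, hy, hxy, hfp⟩ := hload.atoms x0 hx0 (ρ / 2) (by positivity)
  haveI := hload.prob
  set r := min (ρ / 2) y with hr
  have hr0 : 0 < r := lt_min (by positivity) hy.1
  have hball : Metric.ball (y : ℂ) r ⊆ Metric.ball (x0 : ℂ) ρ := by
    refine Metric.ball_subset_ball' ?_
    rw [dist_comm, Complex.dist_eq, ← Complex.ofReal_sub, Complex.norm_real, Real.norm_eq_abs]
    have := min_le_left (ρ / 2) y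
    linarith
  have h0b : (0 : ℂ) ∉ Metric.ball (y : ℂ) r := by
    rw [Metric.mem_ball, dist_comm, Complex.dist_eq, sub_zero, Complex.norm_real, Real.norm_eq_abs,
      abs_of_pos hy.1]
    have := min_le_right (ρ / 2) y
    linarith
  set c := fp.real {(y : ℂ)} with hc
  have hc0 : 0 < c := by
    rw [hc, Measure.real]
    exact ENNReal.toReal_pos hfp.ne' (measure_ne_top _ _)
  rw [EReal.eq_bot_iff_forall_lt]
  intro M
  set s := (|M| + 1) / c with hs
  have hs0 : 0 < s := by positivity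
  obtain ⟨u, hu1, hu2, hu3, hu4, hu5, hu6⟩ := t_B1 (y : ℂ) r (1 / s ^ 2) hr0 (by positivity)
  have hT : Test Ω (fun z => s * u z) :=
    Test.smul ⟨hu1, hu2, hu3.trans (hball.trans (hρb.trans Set.inter_subset_left))⟩ s
  have hJ : J m fp (Measure.dirac 0) (H1.restrict S) (fun z => s * u z) < M := by
    rw [J_smul _ _ _ _ (hu1.differentiable (by simp))]
    have h1 : ∫ p, g2 u p ∂(H1.restrict S) = 0 := by
      have h2 : ∀ᵐ p ∂(H1.restrict S), g2 u p = 0 := by
        have h3 : {p | ¬ g2 u p = 0} ⊆ tsupport u := fun p hp => by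
          by_contra h
          exact hp (g2_eq_zero h)
        have h4 : MeasurableSet {p | ¬ g2 u p = 0} :=
          ((g2_continuous hu1).measurable (measurableSet_singleton 0)).compl
        rw [MeasureTheory.ae_iff, Measure.restrict_apply h4]
        have h5 : {p | ¬ g2 u p = 0} ∩ S = ∅ := by
          rw [Set.eq_empty_iff_forall_notMem]
          rintro p ⟨hp, hpS⟩
          have h6 := (hρb (hball (hu3 (h3 hp)))).2
          exact h6 (subset_closure hpS)
        rw [h5, measure_empty]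
      rw [integral_congr_ae h2, integral_zero]
    have h2 : ∫ p, u p ∂(Measure.dirac (0 : ℂ)) = 0 := by
      rw [integral_dirac]
      by_contra h
      exact h0b (hu3 (subset_tsupport _ h))
    have h3 : c ≤ ∫ p, u p ∂fp := by
      have := int_ge_atom hu1.continuous hu2 hu4 fp (y : ℂ)
      rw [hu5, mul_one] at this
      exact this
    rw [h1, h2, mul_zero, add_zero, sub_zero]
    have h4 : s ^ 2 * (1 / 2 * ∫ p, g2 u p) ≤ 1 / 2 := by
      have h5 : s ^ 2 * ∫ p, g2 u p ≤ s ^ 2 * (1 / s ^ 2) :=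
        mul_le_mul_of_nonneg_left hu6 (by positivity)
      rw [mul_one_div_cancel (by positivity)] at h5
      linarith
    have h5 : s * c ≤ s * ∫ p, u p ∂fp := mul_le_mul_of_nonneg_left h3 hs0.le
    have h6 : s * c = |M| + 1 := by
      rw [hs]
      field_simp
    have h7 : -|M| ≤ M := neg_abs_le M
    linarith
  refine lt_of_le_of_lt (iInf_le _ (⟨_, hT⟩ : {u : ℂ → ℝ // Test Ω u})) ?_
  exact EReal.coe_lt_coe_iff.2 hJ

end Pool.Agent.Q162.RN
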