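import Mathlib
import Pool.Agent.Q162.RN.B2

/-!
# Project RN: job B4 (the load is bounded by the gradient on the segment)
-/

set_option autoImplicit false

open MeasureTheory Filter Topology Set
open scoped ContDiff ENNReal

namespace Pool.Agent.Q162.RN

open Pool.Agent.Q62.RN

/-- Cauchy and Schwarz on an interval -/
theorem cs_interval {l : ℝ} (hl : 0 < l) {f : ℝ → ℝ} (hf : Continuous f) :
    ∫ x in (0:ℝ)..l, |f x| ≤ √(l * ∫ x in (0:ℝ)..l, f x ^ 2) := by
  set A := ∫ x in (0:ℝ)..l, |f x| with hA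
  refine Real.le_sqrt_of_sq_le ?_
  have h1 : 0 ≤ ∫ x in (0:ℝ)..l, (|f x| - A / l) ^ 2 :=
    intervalIntegral.integral_nonneg hl.le fun x _ => sq_nonneg _
  have h2 : ∀ x, (|f x| - A / l) ^ 2 = f x ^ 2 - 2 * (A / l) * |f x| + (A / l) ^ 2 := by
    intro x
    rw [sub_sq, sq_abs]
    ring
  simp only [h2] at h1
  have c1 : IntervalIntegrable (fun x => f x ^ 2) volume 0 l :=
    (hf.pow 2).intervalIntegrable _ _
  have c2 : IntervalIntegrable (fun x => 2 * (A / l) * |f x|) volume 0 l :=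
    (continuous_const.mul hf.abs).intervalIntegrable _ _
  rw [intervalIntegral.integral_add (c1.sub c2) intervalIntegrable_const,
    intervalIntegral.integral_sub c1 c2, intervalIntegral.integral_const_mul, ← hA,
    intervalIntegral.integral_const, sub_zero, smul_eq_mul] at h1
  have h3 : 0 ≤ l * ((∫ x in (0:ℝ)..l, f x ^ 2) - 2 * (A / l) * A + l * (A / l) ^ 2) :=
    mul_nonneg hl.le h1
  have h4 : l * ((∫ x in (0:ℝ)..l, f x ^ 2) - 2 * (A / l) * A + l * (A / l) ^ 2) =
      l * (∫ x in (0:ℝ)..l, f x ^ 2) - A ^ 2 := by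
    field_simp
    ring
  linarith

/-- the variation along the segment -/
theorem var_le {l : ℝ} (hl : 0 < l) {u : ℂ → ℝ} (hu : ContDiff ℝ ∞ u) {x : ℝ}
    (hx : x ∈ Icc 0 l) : |u (x : ℂ) - u 0| ≤ √(l * ∫ x in (0:ℝ)..l, gx u x ^ 2) := by
  have hg : Continuous fun t : ℝ => gx u (t : ℂ) :=
    (gx_continuous hu).comp Complex.continuous_ofReal
  have h1 : ∀ t : ℝ, HasDerivAt (fun t : ℝ => u (t : ℂ)) (gx u (t : ℂ)) t := by
    intro t
    have h2 : HasDerivAt (fun t : ℝ => (t : ℂ)) 1 t := Complex.ofRealCLM.hasDerivAt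
    exact ((hu.differentiable (by simp) (t : ℂ)).hasFDerivAt.comp_hasDerivAt t h2)
  have h2 : ∫ t in (0:ℝ)..x, gx u (t : ℂ) = u (x : ℂ) - u 0 := by
    rw [intervalIntegral.integral_eq_sub_of_hasDerivAt (fun t _ => h1 t)
      (hg.intervalIntegrable _ _), Complex.ofReal_zero]
  rw [← h2]
  calc |∫ t in (0:ℝ)..x, gx u (t : ℂ)| ≤ ∫ t in (0:ℝ)..x, |gx u (t : ℂ)| :=
        intervalIntegral.abs_integral_le_integral_abs hx.1
    _ ≤ ∫ t in (0:ℝ)..l, |gx u (t : ℂ)| := by
        refine intervalIntegral.integral_mono_interval le_rfl hx.1 hx.2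
          (Filter.Eventually.of_forall fun t => abs_nonneg _) (hg.abs.intervalIntegrable _ _)
    _ ≤ _ := cs_interval hl hg

/-- **Job B4.** -/
theorem t_B4 : S_B4 := by
  intro l fp u hl hload hu hc
  have := hload.prob
  rw [integral_dirac]
  have h1 : (∫ p, u p ∂fp) - u 0 = ∫ p, (u p - u 0) ∂fp := by
    rw [integral_sub (int_fin hu.continuous hc fp) (integrable_const _), integral_const]
    simp
  rw [h1]
  have h2 : ∀ᵐ p ∂fp, ‖u p - u 0‖ ≤ √(l * ∫ x in (0:ℝ)..l, gx u x ^ 2) := by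
    have h3 : ∀ᵐ p ∂fp, p ∈ S0 l := by
      rw [MeasureTheory.ae_iff]
      exact hload.supp
    filter_upwards [h3] with p hp
    obtain ⟨x, hx, rfl⟩ := hp
    rw [Real.norm_eq_abs]
    exact var_le hl hu hx
  have h3 := norm_integral_le_of_norm_le_const h2
  rw [Real.norm_eq_abs] at h3
  simpa using h3

end Pool.Agent.Q162.RN
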