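import Mathlib
import Pool.Agent.Q162.RN.B4

/-!
# Project RN: job B5 (finiteness of the energy, near minimizers do not degenerate)
-/

set_option autoImplicit false

open MeasureTheory Filter Topology Set
open scoped ContDiff ENNReal

namespace Pool.Agent.Q162.RN

open Pool.Agent.Q62.RN

theorem int_mu0 (l : ℝ) (φ : ℂ → ℝ) :
    ∫ p, φ p ∂(mu0 l) = 3 / 2 * ∫ p in S0 l, φ p ∂H1 := by
  unfold mu0
  rw [integral_smul_measure, smul_eq_mul]
  congr 1
  rw [ENNReal.toReal_div]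
  norm_num

/-- the integral of the squared gradient on the segment -/
theorem seg_ge (hA1 : S_A1) {l : ℝ} (hl : 0 < l) {u : ℂ → ℝ} (hu : ContDiff ℝ ∞ u) :
    (∫ x in (0:ℝ)..l, gx u x ^ 2) ≤ ∫ p in S0 l, g2 u p ∂H1 := by
  rw [(hA1 l hl).2.2.2.1 (g2 u) (g2_continuous hu)]
  refine intervalIntegral.integral_mono_on hl.le ?_ ?_ fun x _ => ?_
  · exact (((gx_continuous hu).comp Complex.continuous_ofReal).pow 2).intervalIntegrable _ _
  · exact ((g2_continuous hu).comp Complex.continuous_ofReal).intervalIntegrable _ _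
  · unfold g2
    nlinarith [sq_nonneg (gy u x)]

theorem T_nonneg {l : ℝ} (hl : 0 < l) (u : ℂ → ℝ) : 0 ≤ ∫ x in (0:ℝ)..l, gx u x ^ 2 :=
  intervalIntegral.integral_nonneg hl.le fun _ _ => sq_nonneg _

/-- the elementary lower bound -/
theorem lower_bd {l m T X L : ℝ} (hl : 0 < l) (hm : 0 < m) (hT : 0 ≤ T) (hX : T ≤ X)
    (hL : L ≤ √(l * T)) : -(l / (2 * m)) ≤ m / 2 * X - L := by
  have h1 : √(l * T) ^ 2 = l * T := Real.sq_sqrt (by positivity)
  set t := √(l * T) with ht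
  have h2 : m / 2 * T - t = (m * t - l) ^ 2 / (2 * m * l) - l / (2 * m) := by
    have h3 : T = t ^ 2 / l := by
      rw [h1]
      field_simp
    rw [h3]
    field_simp
    ring
  have h4 : 0 ≤ (m * t - l) ^ 2 / (2 * m * l) := by positivity
  have h5 : m / 2 * T ≤ m / 2 * X := mul_le_mul_of_nonneg_left hX (by positivity)
  linarith

/-- **Job B5.** -/
theorem t_B5 (hA1 : S_A1) : S_B5 := by
  intro l m Ω fp hl hm hΩ hSΩ hload
  have := hload.prob
  -- the lower bound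
  have hlow : ∀ (μ : Measure ℂ), (∀ u, Test Ω u → (∫ x in (0:ℝ)..l, gx u x ^ 2) ≤ ∫ p, g2 u p ∂μ) →
      ((-(l / (2 * m)) : ℝ) : EReal) ≤ E Ω m fp (Measure.dirac 0) μ := by
    intro μ hμ
    refine le_iInf fun u => ?_
    refine EReal.coe_le_coe_iff.2 ?_
    have h1 := t_B4 l fp u.1 hl hload u.2.1 u.2.2.1
    have h2 := lower_bd hl hm (T_nonneg hl u.1) (hμ u.1 u.2) ((le_abs_self _).trans h1)
    have h3 : 0 ≤ ∫ p, g2 u.1 p := integral_nonneg fun z => g2_nonneg _ z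
    unfold J
    linarith
  have hseg : ∀ u, Test Ω u → (∫ x in (0:ℝ)..l, gx u x ^ 2) ≤
      ∫ p, g2 u p ∂(H1.restrict (S0 l)) := fun u hu => seg_ge hA1 hl hu.1
  have hmu0 : ∀ u, Test Ω u → (∫ x in (0:ℝ)..l, gx u x ^ 2) ≤ ∫ p, g2 u p ∂(mu0 l) := by
    intro u hu
    rw [int_mu0]
    have h1 := hseg u hu
    have h2 := T_nonneg hl u
    linarith
  refine ⟨fun h => ?_, ?_⟩
  · have h1 := hlow _ hseg
    rw [h] at h1
    exact absurd (le_bot_iff.1 h1) (EReal.coe_ne_bot _)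
  · -- a test function with negative energy
    obtain ⟨v, hv, hJv⟩ : ∃ v, Test Ω v ∧ J m fp (Measure.dirac 0) (mu0 l) v < 0 := by
      obtain ⟨y, hy, -, hfp⟩ := hload.atoms 0 ⟨le_rfl, hl.le⟩ 1 one_pos
      have hyΩ : (y : ℂ) ∈ Ω := hSΩ ⟨y, ⟨hy.1.le, hy.2.le⟩, rfl⟩
      obtain ⟨ρ, hρ, hρb⟩ : ∃ ρ > 0, Metric.ball (y : ℂ) ρ ⊆ Ω := Metric.isOpen_iff.1 hΩ _ hyΩ
      set r := min ρ y with hr
      have hr0 : 0 < r := lt_min hρ hy.1
      have h0b : (0 : ℂ) ∉ Metric.ball (y : ℂ) r := by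
        rw [Metric.mem_ball, dist_comm, Complex.dist_eq, sub_zero, Complex.norm_real,
          Real.norm_eq_abs, abs_of_pos hy.1]
        have := min_le_right ρ y
        linarith
      set c := fp.real {(y : ℂ)} with hc
      have hc0 : 0 < c := by
        rw [hc, Measure.real]
        exact ENNReal.toReal_pos hfp.ne' (measure_ne_top _ _)
      obtain ⟨u, hu1, hu2, hu3, hu4, hu5, hu6⟩ := t_B1 (y : ℂ) r 1 hr0 one_pos
      have h2 : ∫ p, u p ∂(Measure.dirac (0 : ℂ)) = 0 := by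
        rw [integral_dirac]
        by_contra h
        exact h0b (hu3 (subset_tsupport _ h))
      have h3 : c ≤ ∫ p, u p ∂fp := by
        have := int_ge_atom hu1.continuous hu2 hu4 fp (y : ℂ)
        rw [hu5, mul_one] at this
        exact this
      set Q := 1 / 2 * (∫ p, g2 u p) + m / 2 * (∫ p, g2 u p ∂(mu0 l)) with hQ
      have hQ0 : 0 ≤ Q := by
        have h4 : 0 ≤ ∫ p, g2 u p := integral_nonneg fun z => g2_nonneg _ z
        have h5 : 0 ≤ ∫ p, g2 u p ∂(mu0 l) := integral_nonneg fun z => g2_nonneg _ z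
        positivity
      set s := c / (2 * (Q + 1)) with hs
      have hs0 : 0 < s := by positivity
      refine ⟨fun z => s * u z, Test.smul ⟨hu1, hu2, hu3.trans
        ((Metric.ball_subset_ball (min_le_left ρ y)).trans hρb)⟩ s, ?_⟩
      rw [J_smul _ _ _ _ (hu1.differentiable (by simp)), h2, ← hQ, sub_zero]
      have h6 : s * Q < c := by
        rw [hs, div_mul_eq_mul_div, div_lt_iff₀ (by positivity)]
        nlinarith
      nlinarith
    have hlow0 := hlow _ hmu0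
    have hbot : E Ω m fp (Measure.dirac 0) (mu0 l) ≠ ⊥ := by
      intro h
      rw [h] at hlow0
      exact absurd (le_bot_iff.1 hlow0) (EReal.coe_ne_bot _)
    have hup : ∀ u, Test Ω u → E Ω m fp (Measure.dirac 0) (mu0 l) ≤
        ((J m fp (Measure.dirac 0) (mu0 l) u : ℝ) : EReal) := fun u hu =>
      iInf_le (fun u : {u : ℂ → ℝ // Test Ω u} =>
        ((J m fp (Measure.dirac 0) (mu0 l) u.1 : ℝ) : EReal)) ⟨u, hu⟩
    have htop : E Ω m fp (Measure.dirac 0) (mu0 l) ≠ ⊤ := by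
      intro h
      have h1 := hup v hv
      rw [h] at h1
      exact absurd (top_le_iff.1 h1) (EReal.coe_ne_top _)
    obtain ⟨A, hA⟩ : ∃ A : ℝ, E Ω m fp (Measure.dirac 0) (mu0 l) = (A : EReal) :=
      ⟨_, (EReal.coe_toReal htop hbot).symm⟩
    have hA0 : A < 0 := by
      have h1 := hup v hv
      rw [hA] at h1
      exact lt_of_le_of_lt (EReal.coe_le_coe_iff.1 h1) hJv
    have hA2 : 0 < A ^ 2 := by nlinarith
    refine ⟨A, A ^ 2 / (4 * l), -A / 2, by positivity, by linarith, hA, fun u hu hJ => ?_⟩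
    have h1 := t_B4 l fp u hl hload hu.1 hu.2.1
    have h2 := (le_abs_self _).trans h1
    have h3 : 0 ≤ ∫ p, g2 u p := integral_nonneg fun z => g2_nonneg _ z
    have h4 : 0 ≤ ∫ p, g2 u p ∂(mu0 l) := integral_nonneg fun z => g2_nonneg _ z
    have h5 : -A / 2 ≤ √(l * ∫ x in (0:ℝ)..l, gx u x ^ 2) := by
      unfold J at hJ
      have h6 : 0 ≤ m / 2 * ∫ p, g2 u p ∂(mu0 l) := by positivity
      linarith
    have h6 : (-A / 2) ^ 2 ≤ l * ∫ x in (0:ℝ)..l, gx u x ^ 2 := by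
      have h7 : 0 ≤ l * ∫ x in (0:ℝ)..l, gx u x ^ 2 := mul_nonneg hl.le (T_nonneg hl u)
      exact (Real.le_sqrt (by linarith) h7).1 h5
    rw [div_le_iff₀ (by positivity)]
    nlinarith

end Pool.Agent.Q162.RN
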